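import Mathlib
import Pool.Agent.H.MP_7fc841_nt.B

namespace Pool.Agent.Results.MP_3ec1f3_nt.Yes

open Finset Pool.Agent.H.MP_7fc841_nt

/-- rising factorial `(a)_k` -/
def poch (a : ℚ) (k : ℕ) : ℚ := ∏ i ∈ range k, (a + i)

/-- `alpha_r` -/
def α (r p : ℕ) : ℚ := ((p : ℚ) ^ r - 1) / ((p : ℚ) ^ (r + 1) - 1)

/-- `N_r = 1 + p + ... + p^r` -/
def N (r p : ℕ) : ℕ := ∑ i ∈ range (r + 1), p ^ i

/-- `S_r(p)` of the problem -/
def S (r p : ℕ) : ℚ := ∑ k ∈ range (p ^ r),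
  (2 * k / α r p + 1) * (poch (α r p) k / k.factorial) ^ (2 * N r p)

theorem result (p : ℕ) (hp : p.Prime) (h3 : 3 < p) (r : ℕ) (hr : 1 ≤ r) :
    Nat.Coprime (S r p / (p : ℚ) ^ (2 * r + 5)).den p := by
  have := Fact.mk hp
  have h1 : p ∣ N r p - 1 := by
    rw [N, sum_range_succ', pow_zero, Nat.add_sub_cancel]
    exact dvd_sum fun i _ => dvd_pow_self p (by omega)
  have hp1 : 1 ≤ N r p := by rw [N, sum_range_succ', pow_zero]; omega
  have hM : ¬ p ∣ N r p := fun h => hp.one_lt.ne' (Nat.dvd_one.1 (by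
    have := Nat.dvd_sub h h1
    rwa [show N r p - (N r p - 1) = 1 by omega] at this))
  obtain ⟨w, hw⟩ := (main r (N r p) h3 hr hM).2 h1
  obtain ⟨n, hn⟩ : ∃ n, p ^ r = n + 1 := ⟨p ^ r - 1, by have := pow_pos hp.pos r; omega⟩
  have hn' : ¬ p ∣ n := fun h1 => hp.one_lt.ne'
    (Nat.dvd_one.1 ((Nat.dvd_add_right h1).1 (hn ▸ dvd_pow_self p (by omega))))
  obtain ⟨v, hv⟩ := (unit_nat hn').exists_right_inv
  have n0 : (n : ℚ) ≠ 0 := Nat.cast_ne_zero.2 fun h => hn' (h ▸ dvd_zero p)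
  have N0 : (N r p : ℚ) ≠ 0 := Nat.cast_ne_zero.2 (by omega)
  have g : (N r p : ℚ) * (p - 1) = p ^ (r + 1) - 1 := by
    rw [N]; push_cast; exact geom_sum_mul _ _
  have q0 : (p : ℚ) - 1 ≠ 0 := sub_ne_zero.2 (by exact_mod_cast hp.ne_one)
  have hq : (p : ℚ) ^ r = n + 1 := by exact_mod_cast hn
  have a1 : α r p = n / (N r p * (p - 1)) := by rw [α, g, hq, add_sub_cancel_right]
  have a2 : 1 - ((p ^ r : ℕ) : ℚ) / N r p = α r p := by
    rw [a1]
    push_cast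
    field_simp
    rw [pow_succ] at g
    linear_combination g + hq
  have e : S r p * n = (N r p * (p - 1)) * Sig (p ^ r) (N r p) := by
    rw [S, Sig, a2, mul_sum, sum_mul]
    refine sum_congr rfl fun k _ => ?_
    rw [poch, ← mul_assoc, mul_right_comm]
    congr 1
    rw [a1]
    field_simp
  refine den_cop _ (N r p * (p - 1) * w * v) ?_
  have p0 : (p : ℚ_[p]) ≠ 0 := Nat.cast_ne_zero.2 hp.ne_zero
  have e2 := congrArg (Rat.cast : ℚ → ℚ_[p]) e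
  have hv' := congrArg (PadicInt.Coe.ringHom (p := p)) hv
  change (n : ℚ_[p]) * v = 1 at hv'
  push_cast at e2 ⊢
  rw [hw] at e2
  rw [div_eq_iff (pow_ne_zero _ p0)]
  linear_combination (v : ℚ_[p]) * e2 - (S r p : ℚ_[p]) * hv'

end Pool.Agent.Results.MP_3ec1f3_nt.Yes
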